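import Pool.Agent.P8H73.KV.Stm

/-! # Project KV, package EEB: parameters if `log Q / log R` is near an even number -/

set_option autoImplicit false

namespace Pool.Agent.P8H88.KV

open Finset Pool.Agent.H376R2.MR Pool.Agent.H376R2.TT Pool.Agent.P8H73.GM Pool.Agent.P8H73.KV

theorem sum_cube (N : ℕ) (hN : 1 ≤ N) : ∑ g ∈ Icc 1 N, 1 / (g : ℝ) ^ 3 ≤ 2 - 1 / (N : ℝ) := by
  induction N, hN using Nat.le_induction with
  | base => simp; norm_num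
  | succ N hN ih =>
    have hN' : (1 : ℝ) ≤ N := by exact_mod_cast hN
    rw [Finset.sum_Icc_succ_top (by omega)]
    have h1 : 1 / (((N + 1 : ℕ) : ℝ)) ^ 3 ≤ 1 / ((N : ℝ) * (N + 1)) := by
      push_cast
      apply one_div_le_one_div_of_le (by positivity)
      nlinarith [sq_nonneg ((N : ℝ))]
    have e3 : 2 - 1 / (N : ℝ) + 1 / ((N : ℝ) * (N + 1)) = 2 - 1 / ((N + 1 : ℕ) : ℝ) := by
      push_cast; field_simp; ring
    linarith

theorem sum_cube' (T : Finset ℕ) (hT : ∀ g ∈ T, 1 ≤ g) : ∑ g ∈ T, 1 / (g : ℝ) ^ 3 ≤ 2 := by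
  have hsub : T ⊆ Icc 1 (T.sup id + 1) := by
    intro g hg
    rw [mem_Icc]
    exact ⟨hT g hg, (Finset.le_sup (f := id) hg).trans (by simp)⟩
  refine (sum_le_sum_of_subset_of_nonneg hsub (fun _ _ _ => by positivity)).trans ?_
  refine (sum_cube _ (by omega)).trans ?_
  have : 0 ≤ 1 / ((T.sup id + 1 : ℕ) : ℝ) := by positivity
  linarith

theorem sum_inv' (T : Finset ℕ) (G0 : ℝ) (hG0 : 1 ≤ G0) (hT : ∀ g ∈ T, 1 ≤ g ∧ (g : ℝ) ≤ G0) :
    ∑ g ∈ T, 1 / (g : ℝ) ≤ 1 + Real.log G0 := by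
  have hsub : T ⊆ Icc 1 ⌊G0⌋₊ := by
    intro g hg
    rw [mem_Icc]
    exact ⟨(hT g hg).1, Nat.le_floor (hT g hg).2⟩
  refine (sum_le_sum_of_subset_of_nonneg hsub (fun _ _ _ => by positivity)).trans ?_
  have h1 := harmonic_le_one_add_log ⌊G0⌋₊
  rw [harmonic_eq_sum_Icc] at h1
  push_cast at h1
  have h2 : ∑ g ∈ Icc 1 ⌊G0⌋₊, 1 / (g : ℝ) = ∑ g ∈ Icc 1 ⌊G0⌋₊, ((g : ℝ))⁻¹ :=
    sum_congr rfl fun g _ => one_div _
  rw [h2]
  refine h1.trans ?_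
  have h3 : 1 ≤ ⌊G0⌋₊ := (Nat.one_le_floor_iff G0).2 hG0
  have h3' : (1 : ℝ) ≤ (⌊G0⌋₊ : ℝ) := by exact_mod_cast h3
  have := Real.log_le_log (by linarith) (Nat.floor_le (by linarith : 0 ≤ G0))
  linarith

theorem natlog_le (R : ℝ) (hR : 1 ≤ R) (h1 : 1 ≤ Real.log R) : ((Nat.log 2 ⌊R⌋₊ + 1 : ℕ) : ℝ) ≤ 3 * Real.log R := by
  have hfl : 1 ≤ ⌊R⌋₊ := (Nat.one_le_floor_iff R).2 hR
  have h2 : 2 ^ Nat.log 2 ⌊R⌋₊ ≤ ⌊R⌋₊ := Nat.pow_log_le_self 2 (by omega)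
  have h3 : ((2 : ℝ)) ^ Nat.log 2 ⌊R⌋₊ ≤ R := by
    have : ((2 ^ Nat.log 2 ⌊R⌋₊ : ℕ) : ℝ) ≤ (⌊R⌋₊ : ℝ) := by exact_mod_cast h2
    push_cast at this
    exact this.trans (Nat.floor_le (by linarith))
  have h4 := Real.log_le_log (by positivity) h3
  rw [Real.log_pow] at h4
  have hl2 : (0.69 : ℝ) < Real.log 2 := by have := Real.log_two_gt_d9; linarith
  push_cast
  have h5 : (0 : ℝ) ≤ (Nat.log 2 ⌊R⌋₊ : ℝ) := Nat.cast_nonneg _
  nlinarith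

/-- the sum of all error terms -/
theorem err_sum (hTRV : S_TRV) (hSPL : S_SPL) (k : ℕ) (l c : ℤ) (L Δ : ℕ) (R G0 P0 P1 E0 : ℝ)
    (hk : 1 ≤ k) (hΔ : 1 ≤ Δ) (hG0 : 1 ≤ G0) (hGP : G0 ≤ P0) (hGR : G0 ≤ R) (hR : 1 ≤ Real.log R) (hE0 : 0 ≤ E0)
    (hAdm : Adm (SS k R (R / G0) P0 P1) k R)
    (hM : ∀ g i : ℕ, 1 ≤ g → (g : ℝ) ≤ G0 → Nat.Coprime g k →
      |Mi k l c L Δ R (R / G0) P0 P1 g i| ≤ R ^ 4 / ((g : ℝ) ^ 3 * Δ) * E0) :
    |Err k l c L Δ (SS k R (R / G0) P0 P1)| ≤ 6 * Real.log R * (R ^ 4 / Δ) * E0 +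
      24 * (((L : ℝ) / Δ + 4) * (R ^ 2 / G0) * (1 + Real.log G0)) := by
  have hR1 : 1 ≤ R := hG0.trans hGR
  have hR0 : 0 < R := by linarith
  have hΔ0 : (0 : ℝ) < Δ := by exact_mod_cast hΔ
  refine (hTRV k l c L Δ _ R G0 hk hΔ hG0 hGR hAdm).trans ?_
  have hlG : 0 ≤ Real.log G0 := Real.log_nonneg hG0
  have hLD : (0 : ℝ) ≤ (L : ℝ) / Δ := by positivity
  set T := (SS k R (R / G0) P0 P1).filter (fun g : ℕ => (g : ℝ) ≤ G0) with hT
  have hT1 : ∀ g ∈ T, 1 ≤ g ∧ (g : ℝ) ≤ G0 ∧ Nat.Coprime g k := by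
    intro g hg
    rw [hT, mem_filter] at hg
    have h1 := hAdm.2.1 g hg.1
    exact ⟨Nat.pos_of_ne_zero h1.1.ne_zero, hg.2, h1.2.1⟩
  have hEg : ∀ g ∈ T, |Eg k l c L Δ (SS k R (R / G0) P0 P1) (R / G0) g| ≤
      (3 * Real.log R * (R ^ 4 / Δ) * E0) * (1 / (g : ℝ) ^ 3) +
        (4 * (((L : ℝ) / Δ + 4) * (R ^ 2 / G0))) * (1 / (g : ℝ)) := by
    intro g hg
    obtain ⟨hg1, hgG, hgk⟩ := hT1 g hg
    have hg0 : (0 : ℝ) < g := by exact_mod_cast hg1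
    refine (hSPL k l c L Δ g R G0 P0 P1 hk hΔ hG0 hGP hGR hg1 hgG).trans ?_
    apply add_le_add
    · calc ∑ i ∈ range (Nat.log 2 ⌊R⌋₊ + 1), |Mi k l c L Δ R (R / G0) P0 P1 g i| ≤
          ∑ _i ∈ range (Nat.log 2 ⌊R⌋₊ + 1), R ^ 4 / ((g : ℝ) ^ 3 * Δ) * E0 :=
            sum_le_sum fun i _ => hM g i hg1 hgG hgk
        _ = ((Nat.log 2 ⌊R⌋₊ + 1 : ℕ) : ℝ) * (R ^ 4 / ((g : ℝ) ^ 3 * Δ) * E0) := by
            rw [sum_const, card_range, nsmul_eq_mul]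
        _ ≤ (3 * Real.log R) * (R ^ 4 / ((g : ℝ) ^ 3 * Δ) * E0) :=
            mul_le_mul_of_nonneg_right (natlog_le R hR1 hR) (by positivity)
        _ = _ := by field_simp
    · apply le_of_eq
      field_simp
  have hsum : ∑ g ∈ T, |Eg k l c L Δ (SS k R (R / G0) P0 P1) (R / G0) g| ≤
      (3 * Real.log R * (R ^ 4 / Δ) * E0) * 2 + (4 * (((L : ℝ) / Δ + 4) * (R ^ 2 / G0))) * (1 + Real.log G0) := by
    refine (sum_le_sum hEg).trans ?_
    rw [sum_add_distrib, ← mul_sum, ← mul_sum]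
    apply add_le_add
    · apply mul_le_mul_of_nonneg_left (sum_cube' T fun g hg => (hT1 g hg).1) (by positivity)
    · apply mul_le_mul_of_nonneg_left (sum_inv' T G0 hG0 fun g hg => ⟨(hT1 g hg).1, (hT1 g hg).2.1⟩) (by positivity)
  calc _ ≤ ((3 * Real.log R * (R ^ 4 / Δ) * E0) * 2 + (4 * (((L : ℝ) / Δ + 4) * (R ^ 2 / G0))) * (1 + Real.log G0)) +
        20 * ((L : ℝ) / Δ + 4) * (R ^ 2 / G0) * (1 + Real.log G0) := by linarith
    _ = _ := by ring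

/-- the final inequality for the error terms -/
theorem errfin (h ω s θ C₅ Δ L ρ : ℝ) (q0 : 3 ≤ h) (hω : 0 < ω) (hω1 : ω ≤ 1 / 2000) (hC₅1 : 1 ≤ C₅)
    (q3 : 300 * C₅ ^ 100 ≤ h) (hs0 : 0 < s) (hθ0 : 0 < θ) (hωs : ω * s ^ 2 ≤ θ / 40)
    (hCω : 102 * Real.log h ≤ ω * h) (hΔ1 : Real.exp ((1 - ω) * h) ≤ Δ) (hL : L ≤ 2 * Real.exp h) (hL0 : 0 ≤ L)
    (hρ : ρ = (1 + ω) / 2 * h) :
    6 * ρ * (Real.exp ρ ^ 4 / Δ) * ((C₅ * ρ) ^ 100 * (Real.exp (-(θ * ρ / (4 * s ^ 2))) + 1 / Real.exp (5 * (ω * h)))) +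
      24 * ((L / Δ + 4) * (Real.exp ρ ^ 2 / Real.exp (5 * (ω * h))) * (1 + 5 * (ω * h))) ≤ Real.exp ((1 - ω) * h) := by
  have hh0 : 0 < h := by linarith
  have hωh0 : 0 < ω * h := by positivity
  have hρ1 : h / 2 ≤ ρ := by rw [hρ]; linarith
  have hρ2 : ρ ≤ h := by
    rw [hρ]
    have : ω * h ≤ 1 / 2000 * h := mul_le_mul_of_nonneg_right hω1 hh0.le
    linarith
  have hρ0 : 0 < ρ := by linarith
  have hΔ0 : 0 < Δ := (Real.exp_pos _).trans_le hΔ1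
  have t1 : Real.exp ρ ^ 4 / Δ ≤ Real.exp ((1 + 3 * ω) * h) := by
    rw [div_le_iff₀ hΔ0]
    calc Real.exp ρ ^ 4 = Real.exp ((1 + 3 * ω) * h) * Real.exp ((1 - ω) * h) := by
          rw [← Real.exp_nat_mul, ← Real.exp_add, hρ]; congr 1; push_cast; ring
      _ ≤ _ := mul_le_mul_of_nonneg_left hΔ1 (Real.exp_pos _).le
  have t2 : Real.exp (-(θ * ρ / (4 * s ^ 2))) ≤ Real.exp (-(5 * (ω * h))) := by
    apply Real.exp_le_exp.mpr
    rw [neg_le_neg_iff, le_div_iff₀ (by positivity)]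
    calc 5 * (ω * h) * (4 * s ^ 2) = 20 * h * (ω * s ^ 2) := by ring
      _ ≤ 20 * h * (θ / 40) := mul_le_mul_of_nonneg_left hωs (by positivity)
      _ = θ * (h / 2) := by ring
      _ ≤ θ * ρ := mul_le_mul_of_nonneg_left hρ1 hθ0.le
  have t3 : 1 / Real.exp (5 * (ω * h)) = Real.exp (-(5 * (ω * h))) := by rw [Real.exp_neg, one_div]
  rw [t3]
  have t4 : (C₅ * ρ) ^ 100 * (Real.exp (-(θ * ρ / (4 * s ^ 2))) + Real.exp (-(5 * (ω * h)))) ≤
      (C₅ * h) ^ 100 * (2 * Real.exp (-(5 * (ω * h)))) := by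
    apply mul_le_mul
    · exact pow_le_pow_left₀ (by positivity) (mul_le_mul_of_nonneg_left hρ2 (by linarith)) 100
    · linarith
    · positivity
    · positivity
  have t5 : 6 * ρ * (Real.exp ρ ^ 4 / Δ) *
      ((C₅ * ρ) ^ 100 * (Real.exp (-(θ * ρ / (4 * s ^ 2))) + Real.exp (-(5 * (ω * h))))) ≤
      12 * h * (C₅ * h) ^ 100 * Real.exp ((1 - 2 * ω) * h) := by
    calc _ ≤
        6 * h * Real.exp ((1 + 3 * ω) * h) * ((C₅ * h) ^ 100 * (2 * Real.exp (-(5 * (ω * h))))) := by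
          apply mul_le_mul _ t4 (by positivity) (by positivity)
          apply mul_le_mul _ t1 (by positivity) (by positivity)
          linarith
      _ = 12 * h * (C₅ * h) ^ 100 * (Real.exp ((1 + 3 * ω) * h) * Real.exp (-(5 * (ω * h)))) := by ring
      _ = _ := by rw [← Real.exp_add]; congr 2; ring
  have t6 : L / Δ + 4 ≤ 6 * Real.exp (ω * h) := by
    have e1 : L / Δ ≤ 2 * Real.exp (ω * h) := by
      rw [div_le_iff₀ hΔ0]
      calc L ≤ 2 * Real.exp h := hL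
        _ = 2 * (Real.exp (ω * h) * Real.exp ((1 - ω) * h)) := by
            rw [← Real.exp_add]; congr 2; ring
        _ ≤ 2 * (Real.exp (ω * h) * Δ) := by
            apply mul_le_mul_of_nonneg_left _ (by norm_num)
            exact mul_le_mul_of_nonneg_left hΔ1 (Real.exp_pos _).le
        _ = _ := by ring
    have e2 : 1 ≤ Real.exp (ω * h) := Real.one_le_exp hωh0.le
    linarith
  have t7 : Real.exp ρ ^ 2 / Real.exp (5 * (ω * h)) = Real.exp ((1 - 4 * ω) * h) := by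
    rw [← Real.exp_nat_mul, ← Real.exp_sub, hρ]; congr 1; push_cast; ring
  have t8 : 24 * ((L / Δ + 4) * (Real.exp ρ ^ 2 / Real.exp (5 * (ω * h))) * (1 + 5 * (ω * h))) ≤
      288 * h * Real.exp ((1 - 2 * ω) * h) := by
    rw [t7]
    have e1 : 1 + 5 * (ω * h) ≤ 2 * h := by
      have : ω * h ≤ 1 / 2000 * h := mul_le_mul_of_nonneg_right hω1 hh0.le
      linarith
    calc 24 * ((L / Δ + 4) * Real.exp ((1 - 4 * ω) * h) * (1 + 5 * (ω * h))) ≤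
        24 * (6 * Real.exp (ω * h) * Real.exp ((1 - 4 * ω) * h) * (2 * h)) := by
          apply mul_le_mul_of_nonneg_left _ (by norm_num)
          apply mul_le_mul _ e1 (by positivity) (by positivity)
          exact mul_le_mul_of_nonneg_right t6 (Real.exp_pos _).le
      _ = 288 * h * (Real.exp (ω * h) * Real.exp ((1 - 4 * ω) * h)) := by ring
      _ ≤ 288 * h * Real.exp ((1 - 2 * ω) * h) := by
          apply mul_le_mul_of_nonneg_left _ (by positivity)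
          rw [← Real.exp_add]
          apply Real.exp_le_exp.mpr
          linarith
  have t9 : 12 * h * (C₅ * h) ^ 100 + 288 * h ≤ Real.exp (ω * h) := by
    have e1 : Real.exp (102 * Real.log h) ≤ Real.exp (ω * h) := Real.exp_le_exp.mpr hCω
    have e2 : Real.exp (102 * Real.log h) = h ^ 102 := by
      have : (102 : ℝ) * Real.log h = ((102 : ℕ) : ℝ) * Real.log h := by norm_num
      rw [this, Real.exp_nat_mul, Real.exp_log hh0]
    rw [e2] at e1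
    refine le_trans ?_ e1
    have e3 : 1 ≤ C₅ ^ 100 := one_le_pow₀ hC₅1
    have e4 : 1 ≤ h ^ 100 := one_le_pow₀ (by linarith)
    have e5 : 288 * h ≤ 288 * (C₅ ^ 100 * h ^ 100) * h := by
      have : 1 ≤ C₅ ^ 100 * h ^ 100 := one_le_mul_of_one_le_of_one_le e3 e4
      have := mul_le_mul_of_nonneg_right this (by linarith : (0 : ℝ) ≤ 288 * h)
      linarith
    calc 12 * h * (C₅ * h) ^ 100 + 288 * h ≤ 12 * h * (C₅ * h) ^ 100 + 288 * (C₅ ^ 100 * h ^ 100) * h := by linarith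
      _ = (300 * C₅ ^ 100) * h ^ 101 := by rw [mul_pow]; ring
      _ ≤ h * h ^ 101 := mul_le_mul_of_nonneg_right q3 (by positivity)
      _ = h ^ 102 := by ring
  calc _ ≤
      12 * h * (C₅ * h) ^ 100 * Real.exp ((1 - 2 * ω) * h) + 288 * h * Real.exp ((1 - 2 * ω) * h) := add_le_add t5 t8
    _ = (12 * h * (C₅ * h) ^ 100 + 288 * h) * Real.exp ((1 - 2 * ω) * h) := by ring
    _ ≤ Real.exp (ω * h) * Real.exp ((1 - 2 * ω) * h) := mul_le_mul_of_nonneg_right t9 (Real.exp_pos _).le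
    _ = _ := by rw [← Real.exp_add]; congr 1; ring

/-- simple facts about the parameters -/
theorem facts (h ω s θ C₅ c₂ ρ : ℝ) (q0 : 3 ≤ h) (q1 : 16 * C₅ ^ 2 ≤ h) (q2 : 138240 / θ ^ 6 ≤ h) (hC₅1 : 1 ≤ C₅)
    (hs1 : 1 ≤ s) (hω : 0 < ω) (hθ0 : 0 < θ) (hθ50 : θ ≤ 1 / 50) (hc₂θ : c₂ * C₅ = θ / 40) (hc0 : 0 < c₂)
    (hωs : ω * s ^ 2 ≤ c₂) (hCω : 102 * Real.log h ≤ ω * h) (hρ : ρ = (1 + ω) / 2 * h) :
    ω ≤ 1 / 2000 ∧ h / 2 ≤ ρ ∧ ρ ≤ h ∧ 3 * h ^ 2 ≤ Real.exp (ρ * (θ / s)) ∧ (2 * s + 1 / 2) * ρ ≤ 3 * h ^ 2 ∧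
      5 * (ω * h) ≤ ρ * (θ / s) ∧ C₅ * s * (1 + 5 * (ω * h)) ≤ ρ ∧ ω * s ^ 2 ≤ θ / 40 := by
  have hh0 : 0 < h := by linarith
  have hs0 : 0 < s := by linarith
  have hlh : 1 ≤ Real.log h := by
    rw [← Real.log_exp 1]
    apply Real.log_le_log (Real.exp_pos 1)
    have := Real.exp_one_lt_d9
    linarith
  have hc₂θ' : c₂ ≤ θ / 40 := by
    have := mul_le_mul_of_nonneg_left hC₅1 hc0.le
    linarith
  have hss : s ≤ s ^ 2 := by nlinarith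
  have hωss : ω * s ≤ ω * s ^ 2 := mul_le_mul_of_nonneg_left hss hω.le
  have hωs' : ω ≤ ω * s := le_mul_of_one_le_right hω.le hs1
  have hω2000 : ω ≤ 1 / 2000 := by linarith
  have hωh : 102 ≤ ω * h := by linarith
  have hs2 : s ^ 2 ≤ h := by
    have h1 : ω * s ^ 2 * h ≤ c₂ * h := mul_le_mul_of_nonneg_right hωs hh0.le
    have h2 : 102 * s ^ 2 ≤ ω * h * s ^ 2 := mul_le_mul_of_nonneg_right hωh (by positivity)
    have h3 : c₂ * h ≤ 1 * h := mul_le_mul_of_nonneg_right (by linarith) hh0.le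
    linarith [sq_nonneg s]
  obtain ⟨r, hr⟩ : ∃ r : ℝ, r = Real.sqrt h := ⟨_, rfl⟩
  have hr0 : 0 < r := by rw [hr]; exact Real.sqrt_pos.mpr hh0
  have hr2 : r ^ 2 = h := by rw [hr]; exact Real.sq_sqrt hh0.le
  have hsr : s ≤ r := by rw [hr]; exact Real.le_sqrt_of_sq_le hs2
  have hrC : 4 * C₅ ≤ r := by rw [hr]; exact Real.le_sqrt_of_sq_le (by linarith)
  have hωh0 : 0 < ω * h := by positivity
  have hρ1 : h / 2 ≤ ρ := by rw [hρ]; linarith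
  have hρ2 : ρ ≤ h := by
    rw [hρ]
    have : ω * h ≤ 1 / 2000 * h := mul_le_mul_of_nonneg_right hω2000 hh0.le
    linarith
  have hρ0 : 0 < ρ := by linarith
  have hsr2 : s * r ≤ h := by
    calc s * r ≤ r * r := mul_le_mul_of_nonneg_right hsr hr0.le
      _ = h := by rw [← hr2]; ring
  have hw : θ / 2 * r ≤ ρ * (θ / s) := by
    have h1 : r / 2 ≤ ρ / s := by
      rw [le_div_iff₀ hs0]
      linarith
    calc θ / 2 * r = θ * (r / 2) := by ring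
      _ ≤ θ * (ρ / s) := mul_le_mul_of_nonneg_left h1 hθ0.le
      _ = _ := by ring
  have hP0h : 3 * h ^ 2 ≤ Real.exp (ρ * (θ / s)) := by
    have h1 := Real.pow_div_factorial_le_exp (θ / 2 * r) (by positivity) 6
    have h2 : (θ / 2 * r) ^ 6 / ((Nat.factorial 6 : ℕ) : ℝ) = θ ^ 6 * h ^ 3 / 46080 := by
      have : (θ / 2 * r) ^ 6 = θ ^ 6 * (r ^ 2) ^ 3 / 64 := by ring
      rw [this, hr2]
      norm_num [Nat.factorial]
      ring
    rw [h2] at h1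
    have h3 : 3 * h ^ 2 ≤ θ ^ 6 * h ^ 3 / 46080 := by
      rw [div_le_iff₀ (by positivity)] at q2
      have := mul_le_mul_of_nonneg_right q2 (sq_nonneg h)
      rw [le_div_iff₀ (by norm_num)]
      calc 3 * h ^ 2 * 46080 = 138240 * h ^ 2 := by ring
        _ ≤ h * θ ^ 6 * h ^ 2 := this
        _ = _ := by ring
    exact h3.trans (h1.trans (Real.exp_le_exp.mpr hw))
  have hsh : s ≤ h := by linarith
  refine ⟨hω2000, hρ1, hρ2, hP0h, ?_, ?_, ?_, by linarith⟩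
  · calc (2 * s + 1 / 2) * ρ ≤ (3 * h) * h := by
          apply mul_le_mul (by linarith) hρ2 hρ0.le (by positivity)
      _ = 3 * h ^ 2 := by ring
  · have h1 : 5 * (ω * h) ≤ h / 2 * (θ / s) := by
      rw [← mul_div_assoc, le_div_iff₀ hs0]
      have : 10 * (ω * s) * (h / 2) ≤ θ * (h / 2) := mul_le_mul_of_nonneg_right (by linarith) (by positivity)
      linarith
    exact h1.trans (mul_le_mul_of_nonneg_right hρ1 (by positivity))
  · have e1 : C₅ * s ≤ h / 4 := by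
      have : 4 * C₅ * s ≤ r * s := mul_le_mul_of_nonneg_right hrC hs0.le
      linarith
    have e2 : C₅ * s * (5 * (ω * h)) ≤ h / 4 := by
      have e3 : ω * s ≤ c₂ := by linarith
      have e4 : C₅ * (ω * s) ≤ C₅ * c₂ := mul_le_mul_of_nonneg_left e3 (by linarith)
      have e5 : C₅ * (ω * s) ≤ 1 / 2000 := by linarith
      calc C₅ * s * (5 * (ω * h)) = 5 * (C₅ * (ω * s)) * h := by ring
        _ ≤ 5 * (1 / 2000) * h := by
          apply mul_le_mul_of_nonneg_right _ hh0.le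
          linarith
        _ ≤ h / 4 := by linarith
    linarith

theorem eeb : S_TRV → S_SPL → S_EBM → S_GSL → S_ADM → S_EEB := by
  intro hTRV hSPL hEBM hGSL hADM
  obtain ⟨C₄, hC₄1, hGSL⟩ := hGSL
  obtain ⟨θ, hθ⟩ : ∃ θ : ℝ, θ = 1 / (50 * C₄) := ⟨_, rfl⟩
  have hθ0 : 0 < θ := by rw [hθ]; positivity
  have hθ50 : θ ≤ 1 / 50 := by
    rw [hθ]; apply one_div_le_one_div_of_le (by norm_num); linarith
  have hθC : C₄ * θ = 1 / 50 := by
    rw [hθ]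
    have : C₄ ≠ 0 := by linarith
    field_simp
  obtain ⟨C₅, hC₅1, hEBM⟩ := hEBM θ hθ0 (by linarith)
  obtain ⟨c₂, hc₂⟩ : ∃ c₂ : ℝ, c₂ = θ / (40 * C₅) := ⟨_, rfl⟩
  have hc₂0 : 0 < c₂ := by rw [hc₂]; positivity
  have hc₂θ : c₂ * C₅ = θ / 40 := by
    rw [hc₂]
    have : C₅ ≠ 0 := by linarith
    field_simp
  have hc₂θ' : c₂ ≤ θ / 40 := by
    have := mul_le_mul_of_nonneg_left hC₅1 hc₂0.le
    linarith
  obtain ⟨h₀, hh₀⟩ : ∃ h₀ : ℝ, h₀ = 16 * C₅ ^ 2 + 138240 / θ ^ 6 + 300 * C₅ ^ 100 + 3 := ⟨_, rfl⟩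
  have p1 : 0 < 16 * C₅ ^ 2 := by positivity
  have p2 : 0 < 138240 / θ ^ 6 := by positivity
  have p3 : 0 < 300 * C₅ ^ 100 := by positivity
  refine ⟨c₂, 102, Real.exp h₀, hc₂0, by linarith, by norm_num, ?_, ?_⟩
  · have := Real.add_one_le_exp h₀
    linarith
  intro H Q ω k s l hH hk hkQ hl hs hω hωs hCω hQ1 hQ2
  have hH0 : 0 < H := (Real.exp_pos _).trans_le hH
  obtain ⟨h, hh⟩ : ∃ h : ℝ, h = Real.log H := ⟨_, rfl⟩
  rw [← hh] at hCω hQ1 hQ2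
  have hHe : H = Real.exp h := by rw [hh, Real.exp_log hH0]
  have hhh : h₀ ≤ h := by
    rw [hh, ← Real.log_exp h₀]; exact Real.log_le_log (Real.exp_pos _) hH
  have q0 : 3 ≤ h := by linarith
  have q1 : 16 * C₅ ^ 2 ≤ h := by linarith
  have q2 : 138240 / θ ^ 6 ≤ h := by linarith
  have q3 : 300 * C₅ ^ 100 ≤ h := by linarith
  clear p1 p2 p3 hh₀ hhh hH
  have hh0 : 0 < h := by linarith
  have hs1 : (1 : ℝ) ≤ s := by exact_mod_cast hs
  have hs0 : (0 : ℝ) < s := by linarith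
  obtain ⟨ρ, hρ⟩ : ∃ ρ : ℝ, ρ = (1 + ω) / 2 * h := ⟨_, rfl⟩
  rw [← hρ] at hQ1 hQ2
  obtain ⟨hω2000, hρ1, hρ2, f1, f2, f3, f4, f5⟩ := facts h ω s θ C₅ c₂ ρ q0 q1 q2 hC₅1 hs1 hω hθ0 hθ50 hc₂θ hc₂0 hωs hCω hρ
  have hωh0 : 0 < ω * h := by positivity
  have hρ0 : 0 < ρ := by linarith
  have hωh1 : ω * h ≤ 1 / 2000 * h := mul_le_mul_of_nonneg_right hω2000 hh0.le
  -- the parameters
  obtain ⟨R, hR⟩ : ∃ R : ℝ, R = Real.exp ρ := ⟨_, rfl⟩
  obtain ⟨G0, hG0⟩ : ∃ G0 : ℝ, G0 = Real.exp (5 * (ω * h)) := ⟨_, rfl⟩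
  have hR0 : 0 < R := by rw [hR]; exact Real.exp_pos _
  have hG00 : 0 < G0 := by rw [hG0]; exact Real.exp_pos _
  have hlR : Real.log R = ρ := by rw [hR, Real.log_exp]
  have hlG : Real.log G0 = 5 * (ω * h) := by rw [hG0, Real.log_exp]
  obtain ⟨P0, hP0⟩ : ∃ P0 : ℝ, P0 = R ^ (θ / (s : ℝ)) := ⟨_, rfl⟩
  obtain ⟨P1, hP1⟩ : ∃ P1 : ℝ, P1 = R ^ (2 / (5 * (s : ℝ))) := ⟨_, rfl⟩
  have eP0 : P0 = Real.exp (ρ * (θ / s)) := by rw [hP0, Real.rpow_def_of_pos hR0, hlR]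
  have eP1 : P1 = Real.exp (ρ * (2 / (5 * s))) := by rw [hP1, Real.rpow_def_of_pos hR0, hlR]
  have hP00 : 0 < P0 := by rw [eP0]; exact Real.exp_pos _
  have hlP0 : Real.log P0 = ρ * (θ / s) := by rw [eP0, Real.log_exp]
  have hlP1 : Real.log P1 = ρ * (2 / (5 * s)) := by rw [eP1, Real.log_exp]
  have eHR : H ^ ((1 + ω) / 2) = R := by
    rw [Real.rpow_def_of_pos hH0, ← hh, hR, hρ]; congr 1; ring
  have eH1 : H ^ (1 - ω) = Real.exp ((1 - ω) * h) := by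
    rw [Real.rpow_def_of_pos hH0, ← hh]; congr 1; ring
  -- simple facts
  have hG01 : 1 ≤ G0 := by rw [hG0]; exact Real.one_le_exp (by positivity)
  have hGR : G0 ≤ R := by
    rw [hG0, hR]; apply Real.exp_le_exp.mpr; linarith
  have hG10 : G0 ^ 10 ≤ R := by
    rw [hG0, hR, ← Real.exp_nat_mul]; apply Real.exp_le_exp.mpr; push_cast; linarith
  have hP0h : 3 * h ^ 2 ≤ P0 := by rw [eP0]; exact f1
  have h2P0 : 2 ≤ P0 := by
    have : 3 * 3 ≤ h * h := mul_le_mul q0 q0 (by norm_num) (by linarith)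
    rw [← sq] at this
    linarith
  have hP01 : P0 ≤ P1 := by
    rw [eP0, eP1]
    apply Real.exp_le_exp.mpr
    apply mul_le_mul_of_nonneg_left _ hρ0.le
    rw [div_le_div_iff₀ hs0 (by positivity)]
    have := mul_le_mul_of_nonneg_right hθ50 hs0.le
    linarith
  have hP1R : P1 ^ 2 ≤ R := by
    rw [eP1, hR, ← Real.exp_nat_mul]
    apply Real.exp_le_exp.mpr
    push_cast
    have : 2 * (2 / (5 * (s : ℝ))) ≤ 1 := by
      rw [← mul_div_assoc, div_le_one (by positivity)]; linarith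
    calc 2 * (ρ * (2 / (5 * (s : ℝ)))) = ρ * (2 * (2 / (5 * (s : ℝ)))) := by ring
      _ ≤ ρ * 1 := mul_le_mul_of_nonneg_left this hρ0.le
      _ = ρ := mul_one _
  have hlogkQ : Real.log k ≤ Real.log Q := Real.log_le_log (by exact_mod_cast hk) hkQ
  have hkP0 : Real.log k ≤ P0 := by linarith
  have hGP : G0 ≤ P0 := by
    rw [hG0, eP0]
    exact Real.exp_le_exp.mpr f3
  have hAdm : Adm (SS k R (R / G0) P0 P1) k R := by
    apply hADM k R (R / G0) P0 P1 hk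
    · rw [le_div_iff₀ hG00]; linarith
    · rw [div_le_iff₀ hG00]; exact le_mul_of_one_le_right hR0.le hG01
    · exact hP00
    · rw [← mul_div_assoc, le_div_iff₀ hG00, mul_comm P0 R]
      exact mul_le_mul_of_nonneg_left hGP hR0.le
  refine ⟨SS k R (R / G0) P0 P1, ?_, ?_, ?_⟩
  · rw [eHR]; exact hAdm
  · -- the main term
    have hk0 : (0 : ℝ) < k := by exact_mod_cast hk
    have hmain := hGSL k R G0 P0 P1 hk hG01 hG10 h2P0 hP01 hP1R hkP0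
    refine le_trans ?_ hmain
    rw [← hh, mul_assoc]
    apply mul_le_mul_of_nonneg_left _ (by positivity)
    have hq : C₄ * (Real.log P0 / Real.log P1) = 1 / 20 := by
      rw [hlP0, hlP1]
      have : ρ * (θ / s) / (ρ * (2 / (5 * s))) = 5 / 2 * θ := by
        field_simp
      rw [this]
      linarith
    rw [hq, hlR, hlG, hρ]
    have e : h / 2 * (1 + ω / 2 - 102 / h) = h / 2 + ω * h / 4 - 51 := by field_simp; ring
    rw [e]
    linarith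
  · intro c L Δ hΔ1 hΔ2 hL hcor
    rw [eH1] at hΔ1 ⊢
    have hω1 : 0 ≤ (1 - ω) * h := mul_nonneg (by linarith) hh0.le
    have hΔr : (1 : ℝ) ≤ Δ := (Real.one_le_exp hω1).trans hΔ1
    have hΔ : 1 ≤ Δ := by exact_mod_cast hΔr
    have hΔ0 : (0 : ℝ) < Δ := by linarith
    have hRR : R ^ 2 = Real.exp ((1 + ω) * h) := by
      rw [hR, ← Real.exp_nat_mul, hρ]; congr 1; push_cast; ring
    have hHR : H ≤ R ^ 2 := by
      rw [hRR, hHe]; apply Real.exp_le_exp.mpr; linarith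
    have hRG : R ^ 2 ≤ G0 * H := by
      rw [hRR, hHe, hG0, ← Real.exp_add]; apply Real.exp_le_exp.mpr; linarith
    have hQ0 : 0 < Q := by
      have : (1 : ℝ) ≤ k := by exact_mod_cast hk
      linarith
    have hcor' : ∀ τ, Cor c L Δ τ → |(k : ℝ) * τ + l| ≤ 3 * Q * R ^ 2 ∧
        (Q * R ^ 2 ≤ 8 * G0 * |(k : ℝ) * τ + l| ∨ Q ≤ 16 * k) := by
      intro τ hτ
      obtain ⟨h1, h2⟩ := hcor τ hτ
      refine ⟨?_, h2.imp ?_ id⟩
      · refine h1.trans ?_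
        have := mul_le_mul_of_nonneg_left hHR hQ0.le
        linarith
      · intro h3
        calc Q * R ^ 2 ≤ Q * (G0 * H) := mul_le_mul_of_nonneg_left hRG hQ0.le
          _ = G0 * (Q * H) := by ring
          _ ≤ G0 * (8 * |(k : ℝ) * τ + l|) := mul_le_mul_of_nonneg_left h3 hG00.le
          _ = _ := by ring
    obtain ⟨E0, hE0⟩ : ∃ E0 : ℝ, E0 = (C₅ * ρ) ^ 100 * (Real.exp (-(θ * ρ / (4 * (s : ℝ) ^ 2))) + 1 / G0) := ⟨_, rfl⟩
    have hE00 : 0 ≤ E0 := by rw [hE0]; positivity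
    have hM : ∀ g i : ℕ, 1 ≤ g → (g : ℝ) ≤ G0 → Nat.Coprime g k →
        |Mi k l c L Δ R (R / G0) P0 P1 g i| ≤ R ^ 4 / ((g : ℝ) ^ 3 * Δ) * E0 := by
      intro g i hg hgG hgk
      have h3R : 3 ≤ R := by
        rw [hR]
        have h5 := Real.quadratic_le_exp_of_nonneg hρ0.le
        have h6 : 1.5 * 1.5 ≤ ρ * ρ := mul_le_mul (by linarith) (by linarith) (by norm_num) (by linarith)
        rw [← sq] at h6
        linarith
      have hCs : C₅ * s * (1 + Real.log G0) ≤ Real.log R := by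
        rw [hlG, hlR]
        exact f4
      have := hEBM s k l c L Δ g i R G0 Q hs hk hkQ hl hΔ hg hgG hgk h3R hG01 hCs (by rw [hlR]; exact hQ1)
        (by rw [hlR]; exact hQ2) hcor'
      rw [hlR, ← hP0, ← hP1, ← hE0] at this
      exact this
    have hErr := err_sum hTRV hSPL k l c L Δ R G0 P0 P1 E0 hk hΔ hG01 hGP hGR (by rw [hlR]; linarith) hE00 hAdm hM
    refine hErr.trans ?_
    rw [hlR, hlG, hE0, hG0, hR]
    rw [hHe] at hL
    exact errfin h ω s θ C₅ Δ L ρ q0 hω hω2000 hC₅1 q3 hs0 hθ0 f5 hCω hΔ1 hL (Nat.cast_nonneg L) hρ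

end Pool.Agent.P8H88.KV
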