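import Pool.Agent.P8H73.GM.Base
import Pool.Agent.P8H73.GM.Mono
import Pool.Agent.Erdos456.Mertens

/-! # Project KV, tools for UPI and GSL: Mertens products -/

set_option autoImplicit false

namespace Pool.Agent.P8H88.KV

open Finset Pool.Agent.H376R2.MR Pool.Agent.H376R2.TT Pool.Agent.P8H73.GM

/-- the primes `≤ x` -/
noncomputable def PR (x : ℝ) : Finset ℕ := (Icc 1 ⌊x⌋₊).filter Nat.Prime

theorem sumA (N : ℕ) (hN : 1 ≤ N) :
    ∑ p ∈ (Icc 1 N).filter Nat.Prime, 1 / ((p : ℝ) * ((p : ℝ) - 1)) ≤ 1 - 1 / (N : ℝ) := by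
  induction N, hN using Nat.le_induction with
  | base =>
    have : (Icc 1 1).filter Nat.Prime = ∅ := by decide
    rw [this]; simp
  | succ N hN ih =>
    have hN' : (1 : ℝ) ≤ N := by exact_mod_cast hN
    have h := Pool.Agent.Erdos456.Mert.sum_PP_succ (fun p : ℕ => 1 / ((p : ℝ) * ((p : ℝ) - 1))) N
    rw [show ((Icc 1 (N + 1)).filter Nat.Prime) = Pool.Agent.Erdos456.Mert.PP (N + 1) from rfl, h]
    have h2 : (if (N + 1).Prime then 1 / (((N + 1 : ℕ) : ℝ) * (((N + 1 : ℕ) : ℝ) - 1)) else 0) ≤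
        1 / ((N : ℝ) * (N + 1)) := by
      have e : 1 / (((N + 1 : ℕ) : ℝ) * (((N + 1 : ℕ) : ℝ) - 1)) = 1 / ((N : ℝ) * (N + 1)) := by
        push_cast
        rw [add_sub_cancel_right, mul_comm]
      split_ifs
      · rw [e]
      · positivity
    have e3 : 1 - 1 / (N : ℝ) + 1 / ((N : ℝ) * (N + 1)) = 1 - 1 / ((N + 1 : ℕ) : ℝ) := by
      push_cast; field_simp; ring
    calc _ ≤ (1 - 1 / (N : ℝ)) + 1 / ((N : ℝ) * (N + 1)) := add_le_add ih h2
      _ = _ := e3

theorem V_upper (K : Finset ℕ) (hK : ∀ p ∈ K, p.Prime) : V K ≤ Real.exp (-∑ p ∈ K, 1 / (p : ℝ)) := by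
  unfold V
  rw [← Finset.sum_neg_distrib, Real.exp_sum]
  refine Finset.prod_le_prod ?_ ?_
  · intro p hp
    have h2 : (2 : ℝ) ≤ p := by exact_mod_cast (hK p hp).two_le
    have : 1 / (p : ℝ) ≤ 1 := by rw [div_le_one (by linarith)]; linarith
    linarith
  · intro p _
    have := Real.add_one_le_exp (-(1 / (p : ℝ)))
    linarith

theorem V_lower (K : Finset ℕ) (hK : ∀ p ∈ K, p.Prime) :
    Real.exp (-(∑ p ∈ K, 1 / (p : ℝ) + ∑ p ∈ K, 1 / ((p : ℝ) * ((p : ℝ) - 1)))) ≤ V K := by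
  unfold V
  rw [← Finset.sum_add_distrib, ← Finset.sum_neg_distrib, Real.exp_sum]
  refine Finset.prod_le_prod (fun _ _ => (Real.exp_pos _).le) ?_
  intro p hp
  have h2 : (2 : ℝ) ≤ p := by exact_mod_cast (hK p hp).two_le
  have h3 : 0 < 1 - 1 / (p : ℝ) := by
    have : 1 / (p : ℝ) < 1 := by rw [div_lt_one (by linarith)]; linarith
    linarith
  have h4 := Real.one_sub_inv_le_log_of_pos h3
  have h5 : 1 - (1 - 1 / (p : ℝ))⁻¹ = -(1 / (p : ℝ) + 1 / ((p : ℝ) * ((p : ℝ) - 1))) := by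
    have hp0 : (p : ℝ) ≠ 0 := by linarith
    have hp1 : (p : ℝ) - 1 ≠ 0 := by linarith
    have e : (1 - 1 / (p : ℝ)) = ((p : ℝ) - 1) / p := by field_simp
    rw [e, inv_div]
    field_simp
    ring
  rw [h5] at h4
  calc Real.exp _ ≤ Real.exp (Real.log (1 - 1 / (p : ℝ))) := Real.exp_le_exp.mpr h4
    _ = _ := Real.exp_log h3

theorem mertN : ∃ C : ℝ, 3 ≤ C ∧ ∀ N : ℕ, 2 ≤ N → 1 / (C * Real.log N) ≤ V ((Icc 1 N).filter Nat.Prime) ∧
    V ((Icc 1 N).filter Nat.Prime) ≤ C / Real.log N := by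
  obtain ⟨C, hC⟩ := Pool.Agent.Erdos456.Mert.mertens_inv
  have hCp : 0 < Real.exp (C + 1) := Real.exp_pos _
  refine ⟨Real.exp (C + 1) + 3, by linarith, fun N hN => ?_⟩
  have hl2 : (0.69 : ℝ) < Real.log 2 := by have := Real.log_two_gt_d9; linarith
  have hl2' : Real.log 2 < (0.7 : ℝ) := by have := Real.log_two_lt_d9; linarith
  rcases Nat.lt_or_ge N 3 with h3 | h3
  · have : N = 2 := by omega
    subst this
    have e : (Icc 1 2).filter Nat.Prime = {2} := by decide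
    rw [e]
    unfold V
    rw [prod_singleton]
    push_cast
    constructor
    · rw [div_le_iff₀ (by positivity)]
      nlinarith
    · rw [le_div_iff₀ (by linarith)]
      nlinarith
  · have hN3 : (3 : ℝ) ≤ N := by exact_mod_cast h3
    have hlog : 0 < Real.log N := Real.log_pos (by linarith)
    have h := hC N h3
    rw [abs_le] at h
    have hpr : ∀ p ∈ (Icc 1 N).filter Nat.Prime, p.Prime := fun p hp => (mem_filter.mp hp).2
    have hN1 := sumA N (by omega)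
    have hN0 : 0 ≤ 1 / (N : ℝ) := by positivity
    constructor
    · refine le_trans ?_ (V_lower _ hpr)
      have h1 : Real.exp (-(Real.log (Real.log N) + (C + 1))) ≤
          Real.exp (-(∑ p ∈ (Icc 1 N).filter Nat.Prime, 1 / (p : ℝ) +
            ∑ p ∈ (Icc 1 N).filter Nat.Prime, 1 / ((p : ℝ) * ((p : ℝ) - 1)))) := by
        apply Real.exp_le_exp.mpr
        linarith
      refine le_trans ?_ h1
      rw [Real.exp_neg, Real.exp_add (Real.log (Real.log (N : ℝ))), Real.exp_log hlog, one_div]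
      apply inv_anti₀ (by positivity)
      nlinarith
    · refine le_trans (V_upper _ hpr) ?_
      have h1 : Real.exp (-∑ p ∈ (Icc 1 N).filter Nat.Prime, 1 / (p : ℝ)) ≤ Real.exp ((C + 1) - Real.log (Real.log N)) := by
        apply Real.exp_le_exp.mpr
        linarith
      refine le_trans h1 ?_
      rw [Real.exp_sub, Real.exp_log hlog]
      gcongr
      linarith

theorem mert : ∃ C : ℝ, 1 ≤ C ∧ ∀ x : ℝ, 2 ≤ x → 1 / (C * Real.log x) ≤ V (PR x) ∧ V (PR x) ≤ C / Real.log x := by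
  obtain ⟨C, hC3, hC⟩ := mertN
  refine ⟨2 * C, by linarith, fun x hx => ?_⟩
  have hN2 : 2 ≤ ⌊x⌋₊ := Nat.le_floor (by exact_mod_cast hx)
  have hN2' : (2 : ℝ) ≤ (⌊x⌋₊ : ℝ) := by exact_mod_cast hN2
  obtain ⟨h1, h2⟩ := hC _ hN2
  have hx0 : 0 < x := by linarith
  have hlx : 0 < Real.log x := Real.log_pos (by linarith)
  have hlN : 0 < Real.log (⌊x⌋₊ : ℝ) := Real.log_pos (by linarith)
  have hle : Real.log (⌊x⌋₊ : ℝ) ≤ Real.log x := Real.log_le_log (by linarith) (Nat.floor_le hx0.le)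
  have hle2 : Real.log x ≤ 2 * Real.log (⌊x⌋₊ : ℝ) := by
    have h3 : x < (⌊x⌋₊ : ℝ) + 1 := Nat.lt_floor_add_one x
    have h4 : x ≤ (⌊x⌋₊ : ℝ) ^ 2 := by nlinarith
    have := Real.log_le_log hx0 h4
    rwa [Real.log_pow, Nat.cast_ofNat] at this
  constructor
  · refine le_trans ?_ h1
    apply one_div_le_one_div_of_le (by positivity)
    nlinarith
  · refine le_trans h2 ?_
    rw [div_le_div_iff₀ hlN hlx]
    nlinarith

end Pool.Agent.P8H88.KV
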