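import Pool.Agent.P8H73.KV.Stm
import Pool.Agent.P8H88.KV.Mer

/-! # Project KV, package UPI: sieve bound in short intervals on the logarithmic scale

Proof without a sieve: `log (t / G) * T ≤ ∑ h(m) log m ≤ ∑_{m'} h(m') ∑_{t / (G m') < r ≤ t / m'} log r / (r - 1)`. -/

set_option autoImplicit false

namespace Pool.Agent.P8H88.KV

open Finset Pool.Agent.H376R2.MR Pool.Agent.H376R2.TT Pool.Agent.P8H73.GM Pool.Agent.P8H73.KV

theorem G_all (D : ℕ) (hD : 1 ≤ D) : G ((Icc 1 D).filter Nat.Prime) D = 1 := by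
  unfold G selwq_G
  rw [Finset.sum_eq_single 1]
  · exact selwq_g_one _
  · intro m hm hm1
    rw [mem_Icc] at hm
    unfold selwq_g
    rw [if_neg]
    rw [coprime_pr _ (fun p hp => (mem_filter.mp hp).2)]
    push Not
    refine ⟨m.minFac, ?_, Nat.minFac_dvd m⟩
    rw [mem_filter, mem_Icc]
    have hpr := Nat.minFac_prime hm1
    exact ⟨⟨hpr.one_lt.le, (Nat.minFac_le (by omega)).trans hm.2⟩, hpr⟩
  · intro h
    exact absurd (mem_Icc.mpr ⟨le_rfl, hD⟩) h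

theorem G_up : ∃ C : ℝ, 1 ≤ C ∧ ∀ (K : Finset ℕ) (t : ℝ), (∀ p ∈ K, p.Prime ∧ (p : ℝ) ≤ t) → 2 ≤ t →
    G K ⌊t⌋₊ ≤ C * V K * Real.log t := by
  obtain ⟨C, hC1, hC⟩ := mert
  refine ⟨C, hC1, fun K t hK ht => ?_⟩
  have hD : 1 ≤ ⌊t⌋₊ := Nat.le_floor (by push_cast; linarith)
  have hsub : K ⊆ (Icc 1 ⌊t⌋₊).filter Nat.Prime := by
    intro p hp
    obtain ⟨h1, h2⟩ := hK p hp
    rw [mem_filter, mem_Icc]
    exact ⟨⟨h1.one_lt.le, Nat.le_floor h2⟩, h1⟩
  have h := mono ((Icc 1 ⌊t⌋₊).filter Nat.Prime) K (fun p hp => (mem_filter.mp hp).2) hsub ⌊t⌋₊ hD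
  rw [G_all _ hD] at h
  have hV := V_pos K (fun p hp => (hK p hp).1)
  have hVa : 0 < V ((Icc 1 ⌊t⌋₊).filter Nat.Prime) := V_pos _ (fun p hp => (mem_filter.mp hp).2)
  have h1 := (hC t ht).1
  unfold PR at h1
  have hlog : 0 < Real.log t := Real.log_pos (by linarith)
  have h2 : 1 / V ((Icc 1 ⌊t⌋₊).filter Nat.Prime) ≤ C * Real.log t := by
    rw [div_le_iff₀ hVa]
    rw [div_le_iff₀ (by positivity)] at h1
    linarith
  have h3 := h.trans h2
  rw [div_le_iff₀ hV] at h3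
  linarith

/-- Mertens in short intervals on the logarithmic scale -/
theorem mer_int : ∃ C : ℝ, 1 ≤ C ∧ ∀ (X Γ : ℝ) (D : ℕ), 1 ≤ X → 1 ≤ Γ →
    ∑ r ∈ (Icc 1 D).filter (fun r : ℕ => r.Prime ∧ X / Γ < (r : ℝ) ∧ (r : ℝ) ≤ X), Real.log r / ((r : ℝ) - 1) ≤
      Real.log Γ + C := by
  obtain ⟨C, hC1, hC⟩ := mer
  obtain ⟨C', hC'0, hC'⟩ := Pool.Agent.Erdos456.Mert.sum_small_bound
  refine ⟨2 * C + C', by linarith, fun X Γ D hX hΓ => ?_⟩
  have e : ∀ r ∈ (Icc 1 D).filter (fun r : ℕ => r.Prime ∧ X / Γ < (r : ℝ) ∧ (r : ℝ) ≤ X),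
      Real.log r / ((r : ℝ) - 1) = Real.log r / r + Real.log r / (r * ((r : ℝ) - 1)) := by
    intro r hr
    rw [mem_filter] at hr
    have h2 : (2 : ℝ) ≤ r := by exact_mod_cast hr.2.1.two_le
    have h3 : (r : ℝ) - 1 ≠ 0 := by linarith
    field_simp
    ring
  rw [sum_congr rfl e, sum_add_distrib]
  have hlog0 : ∀ r : ℕ, 0 ≤ Real.log (r : ℝ) := fun r => Real.log_natCast_nonneg r
  have b2 : ∑ r ∈ (Icc 1 D).filter (fun r : ℕ => r.Prime ∧ X / Γ < (r : ℝ) ∧ (r : ℝ) ≤ X),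
      Real.log r / (r * ((r : ℝ) - 1)) ≤ C' := by
    refine le_trans (sum_le_sum_of_subset_of_nonneg ?_ ?_) (hC' D)
    · intro r hr
      rw [mem_filter] at hr
      exact mem_filter.mpr ⟨hr.1, hr.2.1⟩
    · intro r hr _
      have h2 : (2 : ℝ) ≤ r := by exact_mod_cast (mem_filter.mp hr).2.two_le
      have := hlog0 r
      apply div_nonneg this
      apply mul_nonneg <;> linarith
  have b1 : ∑ r ∈ (Icc 1 D).filter (fun r : ℕ => r.Prime ∧ X / Γ < (r : ℝ) ∧ (r : ℝ) ≤ X),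
      Real.log r / r ≤ Real.log Γ + 2 * C := by
    have hX1 := hC X hX
    rw [abs_le] at hX1
    by_cases hA : 1 ≤ X / Γ
    · have hA1 := hC (X / Γ) hA
      rw [abs_le] at hA1
      rw [Real.log_div (by linarith) (by linarith)] at hA1
      have hsub : ∑ r ∈ (Icc 1 D).filter (fun r : ℕ => r.Prime ∧ X / Γ < (r : ℝ) ∧ (r : ℝ) ≤ X), Real.log r / r +
          ∑ p ∈ (Icc 1 ⌊X / Γ⌋₊).filter Nat.Prime, Real.log p / (p : ℝ) ≤
          ∑ p ∈ (Icc 1 ⌊X⌋₊).filter Nat.Prime, Real.log p / (p : ℝ) := by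
        rw [← sum_union]
        · refine sum_le_sum_of_subset_of_nonneg ?_ ?_
          · intro r hr
            rw [mem_union, mem_filter, mem_filter, mem_Icc, mem_Icc] at hr
            rw [mem_filter, mem_Icc]
            rcases hr with ⟨⟨h1, _⟩, h2, _, h3⟩ | ⟨⟨h1, h2⟩, h3⟩
            · exact ⟨⟨h1, Nat.le_floor h3⟩, h2⟩
            · refine ⟨⟨h1, h2.trans (Nat.floor_le_floor ?_)⟩, h3⟩
              rw [div_le_iff₀ (by linarith)]
              nlinarith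
          · intro r _ _
            exact div_nonneg (hlog0 r) (Nat.cast_nonneg r)
        · rw [Finset.disjoint_left]
          intro r hr hr'
          rw [mem_filter] at hr hr'
          rw [mem_Icc] at hr'
          have := (Nat.le_floor_iff (by linarith)).mp hr'.1.2
          linarith [hr.2.2.1]
      linarith
    · push Not at hA
      rw [div_lt_one (by linarith)] at hA
      have hsub : ∑ r ∈ (Icc 1 D).filter (fun r : ℕ => r.Prime ∧ X / Γ < (r : ℝ) ∧ (r : ℝ) ≤ X), Real.log r / r ≤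
          ∑ p ∈ (Icc 1 ⌊X⌋₊).filter Nat.Prime, Real.log p / (p : ℝ) := by
        refine sum_le_sum_of_subset_of_nonneg ?_ ?_
        · intro r hr
          rw [mem_filter, mem_Icc] at hr
          rw [mem_filter, mem_Icc]
          exact ⟨⟨hr.1.1, Nat.le_floor hr.2.2.2⟩, hr.2.1⟩
        · intro r _ _
          exact div_nonneg (hlog0 r) (Nat.cast_nonneg r)
      have : Real.log X ≤ Real.log Γ := Real.log_le_log (by linarith) hA.le
      linarith
  linarith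

theorem h_prime_le (q r : ℕ) (hr : r.Prime) : selwq_g q r ≤ 1 / ((r : ℝ) - 1) := by
  have h2 : (2 : ℝ) ≤ r := by exact_mod_cast hr.two_le
  unfold selwq_g sw_g
  rw [if_pos hr.squarefree, Nat.totient_prime hr]
  have e : ((r - 1 : ℕ) : ℝ) = (r : ℝ) - 1 := by
    rw [Nat.cast_sub hr.one_lt.le, Nat.cast_one]
  rw [e]
  split_ifs
  · exact le_rfl
  · apply div_nonneg <;> linarith

theorem log_sqf {m : ℕ} (hm : Squarefree m) : Real.log m = ∑ r ∈ m.primeFactors, Real.log r := by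
  conv_lhs => rw [← Nat.prod_primeFactors_of_squarefree hm]
  push_cast
  rw [Real.log_prod]
  intro r hr
  have := (Nat.prime_of_mem_primeFactors hr).pos
  positivity

theorem key (q D : ℕ) (t Γ : ℝ) (ht : 1 ≤ t) (hΓ : 1 ≤ Γ) (hD : D = ⌊t⌋₊) :
    ∑ m ∈ (Icc 1 D).filter (fun m : ℕ => t / Γ < (m : ℝ)), selwq_g q m * Real.log m ≤
      ∑ m' ∈ Icc 1 D, selwq_g q m' *
        ∑ r ∈ (Icc 1 D).filter (fun r : ℕ => r.Prime ∧ t / m' / Γ < (r : ℝ) ∧ (r : ℝ) ≤ t / m'),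
          Real.log r / ((r : ℝ) - 1) := by
  classical
  set A := (Icc 1 D).filter (fun m : ℕ => t / Γ < (m : ℝ)) with hA
  have hlog0 : ∀ r : ℕ, 0 ≤ Real.log (r : ℝ) := fun r => Real.log_natCast_nonneg r
  -- step 1
  have h1 : ∑ m ∈ A, selwq_g q m * Real.log m ≤
      ∑ m ∈ A.filter (fun m => Squarefree m), ∑ r ∈ m.primeFactors, selwq_g q (m / r) * (Real.log r / ((r : ℝ) - 1)) := by
    rw [sum_filter (fun m => Squarefree m)
      (fun m : ℕ => ∑ r ∈ m.primeFactors, selwq_g q (m / r) * (Real.log r / ((r : ℝ) - 1)))]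
    apply sum_le_sum
    intro m hm
    rw [hA, mem_filter, mem_Icc] at hm
    split_ifs with hs
    · rw [log_sqf hs, mul_sum]
      apply sum_le_sum
      intro r hr
      have hrp := Nat.prime_of_mem_primeFactors hr
      obtain ⟨c, rfl⟩ := Nat.dvd_of_mem_primeFactors hr
      rw [Nat.mul_div_cancel_left c hrp.pos, selwq_g_mul q (sw_coprime hs)]
      have h2 : (2 : ℝ) ≤ r := by exact_mod_cast hrp.two_le
      calc selwq_g q r * selwq_g q c * Real.log r = selwq_g q c * (Real.log r * selwq_g q r) := by ring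
        _ ≤ selwq_g q c * (Real.log r * (1 / ((r : ℝ) - 1))) := by
          apply mul_le_mul_of_nonneg_left _ (selwq_g_nonneg q c)
          exact mul_le_mul_of_nonneg_left (h_prime_le q r hrp) (hlog0 r)
        _ = _ := by ring
    · rw [selwq_g_zero hs, zero_mul]
  refine h1.trans ?_
  -- step 2: sigma sums
  have e1 : ∑ m ∈ A.filter (fun m => Squarefree m), ∑ r ∈ m.primeFactors,
      selwq_g q (m / r) * (Real.log r / ((r : ℝ) - 1)) =
      ∑ x ∈ (A.filter (fun m => Squarefree m)).sigma (fun m => m.primeFactors),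
        selwq_g q (x.1 / x.2) * (Real.log x.2 / ((x.2 : ℝ) - 1)) := by
    rw [sum_sigma]
  have e2 : ∑ m' ∈ Icc 1 D, selwq_g q m' *
        ∑ r ∈ (Icc 1 D).filter (fun r : ℕ => r.Prime ∧ t / m' / Γ < (r : ℝ) ∧ (r : ℝ) ≤ t / m'),
          Real.log r / ((r : ℝ) - 1) =
      ∑ y ∈ (Icc 1 D).sigma (fun m' => (Icc 1 D).filter (fun r : ℕ => r.Prime ∧ t / m' / Γ < (r : ℝ) ∧ (r : ℝ) ≤ t / m')),
        selwq_g q y.1 * (Real.log y.2 / ((y.2 : ℝ) - 1)) := by
    rw [sum_sigma]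
    apply sum_congr rfl
    intro m' _
    rw [mul_sum]
  rw [e1, e2]
  set S := (A.filter (fun m => Squarefree m)).sigma (fun m => m.primeFactors) with hS
  let φ : (Σ _ : ℕ, ℕ) → (Σ _ : ℕ, ℕ) := fun x => ⟨x.1 / x.2, x.2⟩
  have hinj : Set.InjOn φ (S : Set (Σ _ : ℕ, ℕ)) := by
    rintro ⟨m, r⟩ hx ⟨m', r'⟩ hx' he
    rw [mem_coe, hS, mem_sigma] at hx hx'
    simp only [φ, Sigma.mk.injEq, heq_eq_eq] at he
    obtain ⟨h3, h4⟩ := he
    subst h4
    have hd := Nat.dvd_of_mem_primeFactors hx.2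
    have hd' := Nat.dvd_of_mem_primeFactors hx'.2
    simp only at hd hd'
    have : m = m' := by
      rw [← Nat.div_mul_cancel hd, ← Nat.div_mul_cancel hd', h3]
    rw [this]
  have e3 : ∑ x ∈ S, selwq_g q (x.1 / x.2) * (Real.log x.2 / ((x.2 : ℝ) - 1)) =
      ∑ y ∈ S.image φ, selwq_g q y.1 * (Real.log y.2 / ((y.2 : ℝ) - 1)) := by
    rw [sum_image hinj]
  rw [e3]
  refine sum_le_sum_of_subset_of_nonneg ?_ ?_
  · intro y hy
    rw [mem_image] at hy
    obtain ⟨⟨m, r⟩, hx, rfl⟩ := hy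
    rw [hS, mem_sigma, mem_filter, hA, mem_filter, mem_Icc] at hx
    obtain ⟨⟨⟨⟨hm1, hmD⟩, hmt⟩, hs⟩, hr⟩ := hx
    simp only at hm1 hmD hmt hs hr
    have hrp := Nat.prime_of_mem_primeFactors hr
    obtain ⟨c, rfl⟩ := Nat.dvd_of_mem_primeFactors hr
    have hc0 : 0 < c := Nat.pos_of_ne_zero (by rintro rfl; simp at hm1)
    have hc0' : (0 : ℝ) < c := by exact_mod_cast hc0
    have hcD : c ≤ D := (Nat.le_mul_of_pos_left c hrp.pos).trans hmD
    have hrD : r ≤ D := (Nat.le_mul_of_pos_right r hc0).trans hmD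
    have hrcD : ((r * c : ℕ) : ℝ) ≤ t := by
      rw [hD] at hmD
      exact (Nat.le_floor_iff (by linarith)).mp hmD
    push_cast at hrcD hmt
    simp only [φ, Nat.mul_div_cancel_left c hrp.pos]
    rw [mem_sigma, mem_Icc, mem_filter, mem_Icc]
    refine ⟨⟨hc0, hcD⟩, ⟨hrp.one_lt.le, hrD⟩, hrp, ?_, ?_⟩
    · simp only
      rw [div_div, div_lt_iff₀ (by positivity)]
      rw [div_lt_iff₀ (by positivity)] at hmt
      linarith
    · simp only
      rw [le_div_iff₀ hc0']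
      exact hrcD
  · rintro ⟨m', r⟩ hy _
    rw [mem_sigma, mem_filter] at hy
    have h2 : (2 : ℝ) ≤ r := by exact_mod_cast hy.2.2.1.two_le
    apply mul_nonneg (selwq_g_nonneg q _)
    apply div_nonneg (hlog0 _)
    simp only
    linarith

theorem upi : S_UPI := by
  obtain ⟨C₁, hC₁1, hC₁⟩ := mer_int
  obtain ⟨C₂, hC₂1, hC₂⟩ := G_up
  refine ⟨2 * C₁ * C₂, by nlinarith, fun K z t Γ hK hz hzt hΓ hΓt => ?_⟩
  have ht4 : 4 ≤ t := by nlinarith
  have ht0 : 0 < t := by linarith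
  have hΓ0 : 0 < Γ := by linarith
  have hlt : 0 < Real.log t := Real.log_pos (by linarith)
  have hlΓ : 0 ≤ Real.log Γ := Real.log_nonneg hΓ
  have hlΓt : 10 * Real.log Γ ≤ Real.log t := by
    have := Real.log_le_log (by positivity) hΓt
    rwa [Real.log_pow, Nat.cast_ofNat] at this
  have hKt : ∀ p ∈ K, p.Prime ∧ (p : ℝ) ≤ t := fun p hp => ⟨(hK p hp).1, (hK p hp).2.trans (by nlinarith)⟩
  have hG := hC₂ K t hKt (by linarith)
  have hV := V_pos K (fun p hp => (hK p hp).1)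
  set T := ∑ m ∈ (Icc 1 ⌊t⌋₊).filter (fun m : ℕ => t / Γ < (m : ℝ)), selwq_g (pr K) m with hT
  have hT0 : 0 ≤ T := sum_nonneg fun m _ => selwq_g_nonneg _ m
  have k1 : T * Real.log (t / Γ) ≤
      ∑ m ∈ (Icc 1 ⌊t⌋₊).filter (fun m : ℕ => t / Γ < (m : ℝ)), selwq_g (pr K) m * Real.log m := by
    rw [hT, sum_mul]
    apply sum_le_sum
    intro m hm
    rw [mem_filter] at hm
    apply mul_le_mul_of_nonneg_left _ (selwq_g_nonneg _ m)
    exact Real.log_le_log (by positivity) hm.2.le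
  have k2 := key (pr K) ⌊t⌋₊ t Γ (by linarith) hΓ rfl
  have k3 : ∑ m' ∈ Icc 1 ⌊t⌋₊, selwq_g (pr K) m' *
        ∑ r ∈ (Icc 1 ⌊t⌋₊).filter (fun r : ℕ => r.Prime ∧ t / m' / Γ < (r : ℝ) ∧ (r : ℝ) ≤ t / m'),
          Real.log r / ((r : ℝ) - 1) ≤ G K ⌊t⌋₊ * (Real.log Γ + C₁) := by
    unfold G selwq_G
    rw [sum_mul]
    apply sum_le_sum
    intro m' hm'
    rw [mem_Icc] at hm'
    have hm1 : (1 : ℝ) ≤ m' := by exact_mod_cast hm'.1
    have hmt : (m' : ℝ) ≤ t := (Nat.le_floor_iff ht0.le).mp hm'.2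
    apply mul_le_mul_of_nonneg_left _ (selwq_g_nonneg _ m')
    exact hC₁ (t / m') Γ ⌊t⌋₊ (by rw [le_div_iff₀ (by linarith)]; linarith) hΓ
  have k4 : T * Real.log (t / Γ) ≤ C₂ * V K * Real.log t * (Real.log Γ + C₁) :=
    (k1.trans (k2.trans k3)).trans (mul_le_mul_of_nonneg_right hG (by linarith))
  rw [Real.log_div ht0.ne' hΓ0.ne'] at k4
  have k5 : T * (Real.log t / 2) ≤ C₂ * V K * Real.log t * (Real.log Γ + C₁) :=
    le_trans (mul_le_mul_of_nonneg_left (by linarith) hT0) k4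
  have k6 : T ≤ 2 * (C₂ * V K * (Real.log Γ + C₁)) := by
    have : T * Real.log t ≤ (2 * (C₂ * V K * (Real.log Γ + C₁))) * Real.log t := by nlinarith
    exact le_of_mul_le_mul_right this hlt
  refine k6.trans ?_
  have k7 : Real.log Γ + C₁ ≤ C₁ * (1 + Real.log Γ) := by nlinarith
  have k8 : 0 ≤ C₂ * V K := by positivity
  nlinarith [mul_le_mul_of_nonneg_left k7 k8]

end Pool.Agent.P8H88.KV
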