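import Pool.Agent.P8H73.KV.Stm
import Pool.Agent.P8H88.KV.Mer

/-! # Project KV, package GSL: the main term for `S = SS k R (R / G0) P0 P1` -/

set_option autoImplicit false

namespace Pool.Agent.P8H88.KV

open Finset Pool.Agent.H376R2.MR Pool.Agent.H376R2.TT Pool.Agent.P8H73.GM Pool.Agent.P8H73.KV

theorem V_union {A B : Finset ℕ} (h : Disjoint A B) : V (A ∪ B) = V A * V B := by
  unfold V; exact prod_union h

theorem V_le_one (K : Finset ℕ) (hK : ∀ p ∈ K, p.Prime) : V K ≤ 1 := by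
  unfold V
  apply prod_le_one
  · intro p hp
    have h2 : (2 : ℝ) ≤ p := by exact_mod_cast (hK p hp).two_le
    have : 1 / (p : ℝ) ≤ 1 := by rw [div_le_one (by linarith)]; linarith
    linarith
  · intro p _
    have : 0 ≤ 1 / (p : ℝ) := by positivity
    linarith

theorem V_totient (k : ℕ) (hk : 1 ≤ k) : (Nat.totient k : ℝ) / k = V k.primeFactors := by
  have hk0 : (k : ℝ) ≠ 0 := by
    have : (1 : ℝ) ≤ k := by exact_mod_cast hk
    linarith
  rw [sw_phi, mul_div_cancel_left₀ _ hk0]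
  unfold V
  exact prod_congr rfl fun p _ => by rw [one_div]

/-- the primes in `(P0, P1]` have `V ≤ C log P0 / log P1` -/
theorem V_int : ∃ C : ℝ, 1 ≤ C ∧ ∀ P0 P1 : ℝ, 2 ≤ P0 → P0 ≤ P1 →
    V ((PR P1).filter (fun p : ℕ => P0 < (p : ℝ))) ≤ C * (Real.log P0 / Real.log P1) := by
  obtain ⟨C, hC1, hC⟩ := mert
  refine ⟨C ^ 2, by nlinarith, fun P0 P1 h0 h01 => ?_⟩
  have hl0 : 0 < Real.log P0 := Real.log_pos (by linarith)
  have hl1 : 0 < Real.log P1 := Real.log_pos (by linarith)
  have hU : PR P1 = PR P0 ∪ (PR P1).filter (fun p : ℕ => P0 < (p : ℝ)) := by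
    ext p
    unfold PR
    simp only [mem_union, mem_filter, mem_Icc]
    constructor
    · rintro ⟨⟨h1, h2⟩, h3⟩
      by_cases h : P0 < (p : ℝ)
      · exact Or.inr ⟨⟨⟨h1, h2⟩, h3⟩, h⟩
      · exact Or.inl ⟨⟨h1, Nat.le_floor (not_lt.mp h)⟩, h3⟩
    · rintro (⟨⟨h1, h2⟩, h3⟩ | ⟨h1, _⟩)
      · exact ⟨⟨h1, h2.trans (Nat.floor_le_floor h01)⟩, h3⟩
      · exact h1
  have hdis : Disjoint (PR P0) ((PR P1).filter (fun p : ℕ => P0 < (p : ℝ))) := by
    rw [Finset.disjoint_left]
    intro p hp hp'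
    unfold PR at hp
    rw [mem_filter, mem_Icc] at hp
    rw [mem_filter] at hp'
    have := (Nat.le_floor_iff (by linarith)).mp hp.1.2
    linarith [hp'.2]
  have e : V (PR P1) = V (PR P0) * V ((PR P1).filter (fun p : ℕ => P0 < (p : ℝ))) := by
    conv_lhs => rw [hU]
    exact V_union hdis
  have h1 := (hC P0 h0).1
  have h2 := (hC P1 (h0.trans h01)).2
  rw [e] at h2
  set W := V ((PR P1).filter (fun p : ℕ => P0 < (p : ℝ))) with hW
  have hWpos : 0 < W := V_pos _ (fun p hp => (mem_filter.mp (mem_filter.mp hp).1).2)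
  have h3 : 1 / (C * Real.log P0) * W ≤ C / Real.log P1 := (mul_le_mul_of_nonneg_right h1 hWpos.le).trans h2
  rw [le_div_iff₀ hl1] at h3
  have h4 : 1 / (C * Real.log P0) * W * Real.log P1 * (C * Real.log P0) ≤ C * (C * Real.log P0) :=
    mul_le_mul_of_nonneg_right h3 (by positivity)
  have h5 : 1 / (C * Real.log P0) * W * Real.log P1 * (C * Real.log P0) = W * Real.log P1 := by
    have : C ≠ 0 := by linarith
    field_simp
  rw [h5] at h4
  rw [← mul_div_assoc, le_div_iff₀ hl1]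
  nlinarith

/-- few large prime factors -/
theorem V_big (k : ℕ) (hk : 1 ≤ k) (P0 : ℝ) (h0 : 2 ≤ P0) (hkP : Real.log k ≤ P0) :
    Real.exp (-2) ≤ V (k.primeFactors.filter (fun p : ℕ => P0 < (p : ℝ))) := by
  set B := k.primeFactors.filter (fun p : ℕ => P0 < (p : ℝ)) with hB
  have hpr : ∀ p ∈ B, p.Prime := fun p hp => Nat.prime_of_mem_primeFactors (mem_filter.mp hp).1
  refine le_trans ?_ (V_lower B hpr)
  apply Real.exp_le_exp.mpr
  rw [← sum_add_distrib, neg_le_neg_iff]
  have hcard : (B.card : ℝ) ≤ Real.log k := by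
    have h1 : (B.card : ℝ) ≤ ∑ p ∈ B, Real.log p := by
      rw [← nsmul_one, ← sum_const]
      apply sum_le_sum
      intro p hp
      have h3 : (3 : ℝ) ≤ p := by
        have h3 : 2 < (p : ℝ) := by
          have := (mem_filter.mp hp).2
          linarith
        have : 2 < p := by exact_mod_cast h3
        exact_mod_cast this
      rw [← Real.log_exp 1]
      apply Real.log_le_log (Real.exp_pos 1)
      have := Real.exp_one_lt_d9
      linarith
    refine h1.trans ?_
    have h2 : ∑ p ∈ B, Real.log p = Real.log ((∏ p ∈ B, p : ℕ) : ℝ) := by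
      push_cast
      rw [Real.log_prod]
      intro p hp
      have := (hpr p hp).pos
      positivity
    rw [h2]
    have hpos : 0 < ∏ p ∈ B, p := prod_pos fun p hp => (hpr p hp).pos
    apply Real.log_le_log (by exact_mod_cast hpos)
    have : (∏ p ∈ B, p) ∣ k :=
      (prod_dvd_prod_of_subset _ _ _ (filter_subset _ _)).trans (Nat.prod_primeFactors_dvd k)
    exact_mod_cast Nat.le_of_dvd (by omega) this
  have h3 : ∀ p ∈ B, 1 / (p : ℝ) + 1 / ((p : ℝ) * ((p : ℝ) - 1)) ≤ 2 / P0 := by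
    intro p hp
    have hp0 := (mem_filter.mp hp).2
    have h2 : (2 : ℝ) ≤ p := by linarith
    have e : 1 / (p : ℝ) + 1 / ((p : ℝ) * ((p : ℝ) - 1)) = 1 / ((p : ℝ) - 1) := by
      have h1 : (p : ℝ) ≠ 0 := by linarith
      have h1' : (p : ℝ) - 1 ≠ 0 := by linarith
      field_simp
      ring
    rw [e, div_le_div_iff₀ (by linarith) (by linarith)]
    linarith
  calc ∑ p ∈ B, (1 / (p : ℝ) + 1 / ((p : ℝ) * ((p : ℝ) - 1))) ≤ ∑ _p ∈ B, 2 / P0 := sum_le_sum h3
    _ = B.card * (2 / P0) := by rw [sum_const, nsmul_eq_mul]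
    _ ≤ P0 * (2 / P0) := by
      apply mul_le_mul_of_nonneg_right _ (by positivity)
      linarith
    _ = 2 := by field_simp

theorem gsl : S_UPI → S_GSL := by
  classical
  rintro ⟨C, hC1, hC⟩
  obtain ⟨C', hC'1, hC'⟩ := V_int
  refine ⟨C * C' * Real.exp 2, ?_, fun k R G0 P0 P1 hk hG0 hGR h0 h01 hP1 hkP => ?_⟩
  · have : 1 ≤ Real.exp 2 := Real.one_le_exp (by norm_num)
    have h2 : 1 ≤ C * C' := by nlinarith
    nlinarith
  have hR1 : 1 ≤ R := (one_le_pow₀ hG0).trans hGR
  have hR0 : 0 < R := by linarith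
  obtain ⟨hfl, hfl1, _⟩ := log_floor hR1
  have hlG : 0 ≤ Real.log G0 := Real.log_nonneg hG0
  have hl0 : 0 < Real.log P0 := Real.log_pos (by linarith)
  have hl1 : 0 < Real.log P1 := Real.log_pos (by linarith)
  have hk0 : (0 : ℝ) < k := by exact_mod_cast hk
  have hφ : 0 < (Nat.totient k : ℝ) := by exact_mod_cast Nat.totient_pos.mpr hk
  have hφk : 0 < (Nat.totient k : ℝ) / k := by positivity
  -- the set of primes
  set K := (PR P1).filter (fun p : ℕ => p ∣ k ∨ P0 < (p : ℝ)) with hK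
  have hKpr : ∀ p ∈ K, p.Prime ∧ (p : ℝ) ≤ P1 := by
    intro p hp
    rw [hK, mem_filter] at hp
    unfold PR at hp
    rw [mem_filter, mem_Icc] at hp
    exact ⟨hp.1.2, (Nat.le_floor_iff (by linarith)).mp hp.1.1.2⟩
  have hU := hC K P1 R G0 hKpr (h0.trans h01) hP1 hG0 hGR
  -- main term
  have hmain := selwq_G_ge k ⌊R⌋₊ hk hfl
  have hmain2 : (Nat.totient k : ℝ) / k * (Real.log R - 1) ≤ selwq_G k ⌊R⌋₊ := by
    have h1 : (Nat.totient k : ℝ) / k * Real.log (⌊R⌋₊ : ℝ) ≤ selwq_G k ⌊R⌋₊ := by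
      have := mul_le_mul_of_nonneg_left hmain hφk.le
      rw [← mul_assoc] at this
      have e : (Nat.totient k : ℝ) / k * (k / (Nat.totient k : ℝ)) = 1 := by field_simp
      rwa [e, one_mul] at this
    exact (mul_le_mul_of_nonneg_left hfl1 hφk.le).trans h1
  -- comparison
  have hcomp : selwq_G k ⌊R⌋₊ ≤ GS (SS k R (R / G0) P0 P1) +
      ∑ m ∈ (Icc 1 ⌊R⌋₊).filter (fun m : ℕ => R / G0 < (m : ℝ)), selwq_g (pr K) m := by
    unfold selwq_G GS SS
    rw [sum_filter, sum_filter, ← sum_add_distrib]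
    apply sum_le_sum
    intro m hm
    rw [mem_Icc] at hm
    have hnn1 : 0 ≤ sw_g m := sw_g_nonneg m
    have hnn2 : 0 ≤ selwq_g (pr K) m := selwq_g_nonneg _ m
    by_cases hs : Squarefree m
    swap
    · rw [selwq_g_zero hs]
      split_ifs <;> linarith
    by_cases hc : Nat.Coprime m k
    swap
    · have : selwq_g k m = 0 := by unfold selwq_g; rw [if_neg hc]
      rw [this]
      split_ifs <;> linarith
    have hsw : selwq_g k m = sw_g m := by unfold selwq_g; rw [if_pos hc]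
    rw [hsw]
    by_cases hm' : ((m : ℝ) ≤ R / G0 ∨ ∃ p : ℕ, p.Prime ∧ P0 < (p : ℝ) ∧ (p : ℝ) ≤ P1 ∧ p ∣ m)
    · rw [if_pos ⟨hs, hc, hm'⟩]
      split_ifs <;> linarith
    · rw [if_neg (fun h => hm' h.2.2), zero_add]
      push Not at hm'
      rw [if_pos hm'.1]
      have hcop : m.Coprime (pr K) := by
        rw [coprime_pr K (fun p hp => (hKpr p hp).1)]
        intro p hp hpm
        obtain ⟨hp1, hp2⟩ := hKpr p hp
        rw [hK, mem_filter] at hp
        rcases hp.2 with h | h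
        · have := Nat.dvd_gcd hpm h
          rw [Nat.Coprime] at hc
          rw [hc] at this
          exact hp1.one_lt.ne' (Nat.dvd_one.mp this)
        · exact hm'.2 p hp1 h hp2 hpm
      unfold selwq_g
      rw [if_pos hcop]
  -- the product
  have hVK : V K ≤ (Nat.totient k : ℝ) / k * (Real.exp 2 * (C' * (Real.log P0 / Real.log P1))) := by
    set A := k.primeFactors.filter (fun p : ℕ => ¬ P0 < (p : ℝ)) with hA
    set B := (PR P1).filter (fun p : ℕ => P0 < (p : ℝ)) with hB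
    set B' := k.primeFactors.filter (fun p : ℕ => P0 < (p : ℝ)) with hB'
    have hKU : K = A ∪ B := by
      ext p
      rw [hK, hA, hB]
      simp only [mem_union, mem_filter, Nat.mem_primeFactors]
      unfold PR
      simp only [mem_filter, mem_Icc]
      constructor
      · rintro ⟨⟨⟨h1, h2⟩, h3⟩, h4⟩
        by_cases h : P0 < (p : ℝ)
        · exact Or.inr ⟨⟨⟨h1, h2⟩, h3⟩, h⟩
        · exact Or.inl ⟨⟨h3, h4.resolve_right h, by omega⟩, h⟩
      · rintro (⟨⟨h1, h2, _⟩, h3⟩ | ⟨h1, h2⟩)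
        · exact ⟨⟨⟨h1.one_lt.le, Nat.le_floor ((not_lt.mp h3).trans h01)⟩, h1⟩, Or.inl h2⟩
        · exact ⟨h1, Or.inr h2⟩
    have hdis : Disjoint A B := by
      rw [Finset.disjoint_left]
      intro p hp hp'
      exact (mem_filter.mp hp).2 (mem_filter.mp hp').2
    have hkU : k.primeFactors = A ∪ B' := by
      rw [hA, hB', union_comm, filter_union_filter_not_eq]
    have hdis' : Disjoint A B' := by
      rw [Finset.disjoint_left]
      intro p hp hp'
      exact (mem_filter.mp hp).2 (mem_filter.mp hp').2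
    have hAB' : V A * V B' = (Nat.totient k : ℝ) / k := by
      rw [V_totient k hk, hkU, V_union hdis']
    have hb := V_big k hk P0 h0 hkP
    have hA0 : 0 < V A := V_pos A fun p hp => Nat.prime_of_mem_primeFactors (mem_filter.mp hp).1
    have hB0 : 0 < V B := V_pos B fun p hp => (mem_filter.mp (mem_filter.mp hp).1).2
    have hA1 : V A ≤ (Nat.totient k : ℝ) / k * Real.exp 2 := by
      rw [← hAB']
      have : 1 ≤ V B' * Real.exp 2 := by
        calc (1 : ℝ) = Real.exp (-2) * Real.exp 2 := by rw [← Real.exp_add]; norm_num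
          _ ≤ _ := mul_le_mul_of_nonneg_right hb (Real.exp_pos 2).le
      nlinarith
    rw [hKU, V_union hdis]
    calc V A * V B ≤ ((Nat.totient k : ℝ) / k * Real.exp 2) * (C' * (Real.log P0 / Real.log P1)) :=
          mul_le_mul hA1 (hC' P0 P1 h0 h01) hB0.le (by positivity)
      _ = _ := by ring
  have hfin : ∑ m ∈ (Icc 1 ⌊R⌋₊).filter (fun m : ℕ => R / G0 < (m : ℝ)), selwq_g (pr K) m ≤
      (Nat.totient k : ℝ) / k * (C * C' * Real.exp 2 * (Real.log P0 / Real.log P1) * (1 + Real.log G0)) := by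
    refine hU.trans ?_
    calc C * V K * (1 + Real.log G0) ≤
        C * ((Nat.totient k : ℝ) / k * (Real.exp 2 * (C' * (Real.log P0 / Real.log P1)))) * (1 + Real.log G0) := by
          apply mul_le_mul_of_nonneg_right _ (by linarith)
          exact mul_le_mul_of_nonneg_left hVK (by linarith)
      _ = _ := by ring
  have : (Nat.totient k : ℝ) / k * (Real.log R - 1 - C * C' * Real.exp 2 * (Real.log P0 / Real.log P1) * (1 + Real.log G0)) =
    (Nat.totient k : ℝ) / k * (Real.log R - 1) -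
      (Nat.totient k : ℝ) / k * (C * C' * Real.exp 2 * (Real.log P0 / Real.log P1) * (1 + Real.log G0)) := by ring
  rw [this]
  linarith

end Pool.Agent.P8H88.KV
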